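import Pool.Agent.H91.Sym.A1
import Pool.Agent.H89.KD.Defs
import Pool.Agent.H85.KG.PWB

/-!
# Linear changes of variables

`tU T U` is the potential of the image of `mu U` under the linear map `T`.
-/

set_option autoImplicit false
set_option linter.unusedSectionVars false

open MeasureTheory Set Filter Topology
open scoped ContDiff

namespace Pool.Agent.H20.KB

open Pool.Agent.H84 hiding cv mn
open Pool.Agent.H84.Sym Pool.Agent.H84.Sym.P2x Pool.Agent.H19.KL
open Pool.Agent.H73.KG Pool.Agent.H20.KH Pool.Agent.H89.KD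

variable {E : Type} [NormedAddCommGroup E] [InnerProductSpace ℝ E]
    [FiniteDimensional ℝ E] [MeasurableSpace E] [BorelSpace E]

/-- the potential of the image measure -/
noncomputable def tU (T : E ≃L[ℝ] E) (U : E → ℝ) (x : E) : ℝ :=
  U (T.symm x) + Real.log |LinearMap.det ((T : E →L[ℝ] E) : E →ₗ[ℝ] E)|

theorem lin_det_ne (T : E ≃L[ℝ] E) : LinearMap.det ((T : E →L[ℝ] E) : E →ₗ[ℝ] E) ≠ 0 := by
  have h : ((T : E →L[ℝ] E) : E →ₗ[ℝ] E) = (T.toLinearEquiv : E →ₗ[ℝ] E) := rfl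
  rw [h]
  exact (LinearEquiv.isUnit_det' T.toLinearEquiv).ne_zero

theorem lin_det_pos (T : E ≃L[ℝ] E) : 0 < |LinearMap.det ((T : E →L[ℝ] E) : E →ₗ[ℝ] E)| :=
  abs_pos.2 (lin_det_ne T)

/-- change of variables for the Lebesgue measure -/
theorem lin_int_vol (T : E ≃L[ℝ] E) (F : E → ℝ) :
    |LinearMap.det ((T : E →L[ℝ] E) : E →ₗ[ℝ] E)| * ∫ x, F (T x) = ∫ x, F x := by
  have hd := lin_det_ne T
  have hpos := lin_det_pos T
  have hmap := Measure.map_linearMap_addHaar_eq_smul_addHaar (volume : Measure E)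
    (f := ((T : E →L[ℝ] E) : E →ₗ[ℝ] E)) hd
  have h1 : ∫ x, F (T x) = ∫ y, F y ∂(Measure.map T.toHomeomorph volume) := by
    rw [T.toHomeomorph.measurableEmbedding.integral_map]
    rfl
  have h2 : (Measure.map T.toHomeomorph (volume : Measure E)) =
      Measure.map ((T : E →L[ℝ] E) : E →ₗ[ℝ] E) volume := rfl
  rw [h1, h2, hmap, integral_smul_measure, abs_inv, ENNReal.toReal_ofReal (inv_pos.mpr hpos).le,
    smul_eq_mul, ← mul_assoc, mul_inv_cancel₀ hpos.ne', one_mul]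

theorem lin_exp (T : E ≃L[ℝ] E) (U : E → ℝ) (x : E) :
    |LinearMap.det ((T : E →L[ℝ] E) : E →ₗ[ℝ] E)| * Real.exp (-tU T U (T x)) =
      Real.exp (-U x) := by
  have hpos := lin_det_pos T
  rw [tU, ContinuousLinearEquiv.symm_apply_apply, neg_add, Real.exp_add, Real.exp_neg (Real.log _),
    Real.exp_log hpos]
  field_simp

/-- change of variables for `mu`, written with the Lebesgue measure -/
theorem lin_int0 (T : E ≃L[ℝ] E) (U F : E → ℝ) :
    ∫ x, F x * Real.exp (-tU T U x) = ∫ x, F (T x) * Real.exp (-U x) := by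
  rw [← lin_int_vol T (fun x => F x * Real.exp (-tU T U x)), ← integral_const_mul]
  congr 1
  funext x
  rw [← lin_exp T U x]
  ring

theorem lin_cont (T : E ≃L[ℝ] E) {U : E → ℝ} (hU : Continuous U) : Continuous (tU T U) :=
  (hU.comp T.symm.continuous).add continuous_const

theorem lin_smooth (T : E ≃L[ℝ] E) {U : E → ℝ} {n : ℕ∞ω} (hU : ContDiff ℝ n U) :
    ContDiff ℝ n (tU T U) :=
  (hU.comp T.symm.contDiff).add contDiff_const

/-- change of variables for `mu` -/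
theorem lin_int (T : E ≃L[ℝ] E) {U : E → ℝ} (hU : Continuous U) (F : E → ℝ) :
    ∫ x, F x ∂(mu (tU T U)) = ∫ x, F (T x) ∂(mu U) := by
  rw [Pool.Agent.H84.Sym.integral_mu (lin_cont T hU), Pool.Agent.H84.Sym.integral_mu hU]
  exact lin_int0 T U F

theorem lin_fd (T : E ≃L[ℝ] E) {U : E → ℝ} (hU : Differentiable ℝ U) (x : E) :
    fderiv ℝ (tU T U) x = (fderiv ℝ U (T.symm x)).comp (T.symm : E →L[ℝ] E) := by
  unfold tU
  rw [fderiv_add_const]
  have h2 : HasFDerivAt (fun y => U (T.symm y))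
      ((fderiv ℝ U (T.symm x)).comp (T.symm : E →L[ℝ] E)) x :=
    (hU (T.symm x)).hasFDerivAt.comp x (T.symm : E →L[ℝ] E).hasFDerivAt
  exact h2.fderiv

theorem lin_hess (T : E ≃L[ℝ] E) {U : E → ℝ} (hU : ContDiff ℝ 2 U) (x v w : E) :
    fderiv ℝ (fderiv ℝ (tU T U)) x v w =
      fderiv ℝ (fderiv ℝ U) (T.symm x) (T.symm v) (T.symm w) := by
  have h0 : Differentiable ℝ U := hU.differentiable (by norm_num)
  have h1 : Differentiable ℝ (fderiv ℝ U) :=
    (hU.fderiv_right (m := 1) (by norm_num)).differentiable (by norm_num)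
  have h : fderiv ℝ (tU T U) = fun x => (fderiv ℝ U (T.symm x)).comp (T.symm : E →L[ℝ] E) := by
    funext y; exact lin_fd T h0 y
  rw [h]
  have h2 : HasFDerivAt (fun y => fderiv ℝ U (T.symm y))
      ((fderiv ℝ (fderiv ℝ U) (T.symm x)).comp (T.symm : E →L[ℝ] E)) x :=
    (h1 (T.symm x)).hasFDerivAt.comp x (T.symm : E →L[ℝ] E).hasFDerivAt
  have h3 : HasFDerivAt (fun y => (fderiv ℝ U (T.symm y)).comp (T.symm : E →L[ℝ] E))
      (((ContinuousLinearMap.compL ℝ E E ℝ).flip (T.symm : E →L[ℝ] E)).comp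
        ((fderiv ℝ (fderiv ℝ U) (T.symm x)).comp (T.symm : E →L[ℝ] E))) x :=
    ((ContinuousLinearMap.compL ℝ E E ℝ).flip (T.symm : E →L[ℝ] E)).hasFDerivAt.comp x h2
  rw [h3.fderiv]
  simp

/-- the image of a uniformly log-concave measure -/
theorem lin_pp (T : E ≃L[ℝ] E) {U : E → ℝ} {t t' : ℝ} (hU : PP U t) (ht' : 0 < t')
    (hh : ∀ x v : E, t' * ‖v‖ ^ 2 ≤ fderiv ℝ (fderiv ℝ U) x (T.symm v) (T.symm v)) :
    PP (tU T U) t' := by
  obtain ⟨⟨C, hP⟩, hprob⟩ := hU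
  have h0 : Differentiable ℝ U := hP.smooth.differentiable (by norm_num)
  have hc : Continuous U := h0.continuous
  refine ⟨⟨C * ‖(T.symm : E →L[ℝ] E)‖ * (1 + ‖(T.symm : E →L[ℝ] E)‖), lin_smooth T hP.smooth, ht',
    ?_, ?_⟩, ?_⟩
  · intro x v
    rw [lin_hess T hP.smooth x v v]
    exact hh _ v
  · intro x
    rw [lin_fd T h0]
    have hC : 0 ≤ C := by
      have := (norm_nonneg _).trans (hP.grad 0)
      simpa using this
    have hn := norm_nonneg (T.symm : E →L[ℝ] E)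
    have hx := norm_nonneg x
    calc ‖(fderiv ℝ U (T.symm x)).comp (T.symm : E →L[ℝ] E)‖
        ≤ ‖fderiv ℝ U (T.symm x)‖ * ‖(T.symm : E →L[ℝ] E)‖ :=
          ContinuousLinearMap.opNorm_comp_le _ _
      _ ≤ (C * (1 + ‖T.symm x‖)) * ‖(T.symm : E →L[ℝ] E)‖ := by gcongr; exact hP.grad _
      _ ≤ (C * (1 + ‖(T.symm : E →L[ℝ] E)‖ * ‖x‖)) * ‖(T.symm : E →L[ℝ] E)‖ := by
          gcongr; exact (T.symm : E →L[ℝ] E).le_opNorm x
      _ ≤ C * ‖(T.symm : E →L[ℝ] E)‖ * (1 + ‖(T.symm : E →L[ℝ] E)‖) * (1 + ‖x‖) := by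
          have : 0 ≤ C * ‖(T.symm : E →L[ℝ] E)‖ * (‖(T.symm : E →L[ℝ] E)‖ + ‖x‖) := by positivity
          nlinarith
  · constructor
    have h1 : ∫ _x : E, (1:ℝ) ∂(mu (tU T U)) = ∫ _x : E, (1:ℝ) ∂(mu U) := lin_int T hc (fun _ => 1)
    have h2 : ∫ _x : E, (1:ℝ) ∂(mu U) = 1 := by simp
    rw [h2] at h1
    simp only [integral_const, smul_eq_mul, mul_one] at h1
    rw [Measure.real] at h1
    rw [← ENNReal.toReal_eq_one_iff]
    exact h1

/-- a crude bound for the Hessian of the image -/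
theorem lin_pp' (T : E ≃L[ℝ] E) {U : E → ℝ} {t t' : ℝ} (hU : PP U t) (ht' : 0 < t')
    (hh : ∀ v : E, t' * ‖v‖ ^ 2 ≤ t * ‖T.symm v‖ ^ 2) : PP (tU T U) t' := by
  refine lin_pp T hU ht' fun x v => (hh v).trans ?_
  obtain ⟨⟨C, hP⟩, -⟩ := hU
  exact hP.hess x _

theorem lin_cv (T : E ≃L[ℝ] E) {U : E → ℝ} (hU : Continuous U) (f g : E → ℝ) :
    cv (tU T U) f g = cv U (fun x => f (T x)) (fun x => g (T x)) := by
  unfold Pool.Agent.H73.KG.cv
  rw [lin_int T hU (fun x => f x * g x), lin_int T hU f, lin_int T hU g]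

/-- linear functionals -/
theorem lin_li (T : E ≃L[ℝ] E) (e x : E) :
    li e (T x) = li (ContinuousLinearMap.adjoint (T : E →L[ℝ] E) e) x := by
  unfold li
  rw [ContinuousLinearMap.adjoint_inner_left]
  rfl

/-- the tilted integrals of the image measure -/
theorem lin_ZF (T : E ≃L[ℝ] E) (U : E → ℝ) (s : ℝ) (θ : E) (F : E → ℝ) :
    ZF (tU T U) s θ F = ∫ x, F (T x) *
      Real.exp (-(U x + s * ‖T x‖ ^ 2 / 2 - inner ℝ (ContinuousLinearMap.adjoint
        (T : E →L[ℝ] E) θ) x)) := by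
  have e1 : ∀ x, F x * Real.exp (-tp (tU T U) s θ x) =
      (F x * Real.exp (-(s * ‖x‖ ^ 2 / 2 - inner ℝ θ x))) * Real.exp (-tU T U x) := by
    intro x
    rw [mul_assoc, ← Real.exp_add]
    congr 2
    unfold tp
    ring
  unfold ZF
  simp only [e1]
  rw [lin_int0 T U (fun x => F x * Real.exp (-(s * ‖x‖ ^ 2 / 2 - inner ℝ θ x)))]
  congr 1
  funext x
  rw [mul_assoc, ← Real.exp_add]
  congr 2
  have h := lin_li T θ x
  unfold li at h
  rw [h]
  ring

/-- the tilted means of the image measure, without precision -/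
theorem lin_pm0 (T : E ≃L[ℝ] E) (U : E → ℝ) (θ : E) (F : E → ℝ) :
    pm (tU T U) 0 θ F =
      pm U 0 (ContinuousLinearMap.adjoint (T : E →L[ℝ] E) θ) (fun x => F (T x)) := by
  have h : ∀ G : E → ℝ, ZF (tU T U) 0 θ G =
      ZF U 0 (ContinuousLinearMap.adjoint (T : E →L[ℝ] E) θ) (fun x => G (T x)) := by
    intro G
    rw [lin_ZF]
    unfold ZF tp
    congr 1
    funext x
    congr 2
    ring
  unfold pm
  rw [h, h]

/-- the transpose of `T` as an equivalence -/
noncomputable def tr (T : E ≃L[ℝ] E) : E ≃L[ℝ] E :=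
  ContinuousLinearEquiv.equivOfInverse (ContinuousLinearMap.adjoint (T : E →L[ℝ] E))
    (ContinuousLinearMap.adjoint (T.symm : E →L[ℝ] E))
    (fun x => by
      refine ext_inner_right ℝ fun y => ?_
      rw [ContinuousLinearMap.adjoint_inner_left, ContinuousLinearMap.adjoint_inner_left]
      simp)
    (fun x => by
      refine ext_inner_right ℝ fun y => ?_
      rw [ContinuousLinearMap.adjoint_inner_left, ContinuousLinearMap.adjoint_inner_left]
      simp)

theorem tr_apply (T : E ≃L[ℝ] E) (x : E) :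
    tr T x = ContinuousLinearMap.adjoint (T : E →L[ℝ] E) x := rfl

theorem tr_inner (T : E ≃L[ℝ] E) (x y : E) : inner ℝ (tr T x) y = inner ℝ x (T y) := by
  rw [tr_apply, ContinuousLinearMap.adjoint_inner_left]
  rfl

theorem tr_li (T : E ≃L[ℝ] E) (e x : E) : li e (T x) = li (tr T e) x := lin_li T e x

theorem tr_tr (T : E ≃L[ℝ] E) (x : E) : tr (tr T) x = T x := by
  refine ext_inner_left ℝ fun y => ?_
  rw [real_inner_comm, tr_inner, real_inner_comm, tr_inner]

/-- iterated derivatives of a function composed with a linear equivalence -/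
theorem lin_DL (S : E ≃L[ℝ] E) (F : E → ℝ) (l : List E) :
    DL l (fun θ => F (S θ)) = fun θ => DL (l.map S) F (S θ) := by
  induction l with
  | nil => rfl
  | cons v l ih =>
    rw [DL_cons, ih, List.map_cons, DL_cons]
    funext θ
    unfold D
    have h : (fun θ => DL (l.map S) F (S θ)) = (DL (l.map S) F) ∘ S := rfl
    rw [h, ContinuousLinearEquiv.comp_right_fderiv]
    rfl

/-- the iterated derivatives of the posterior means of the image measure -/
theorem lin_ND (T : E ≃L[ℝ] E) (U ψ : E → ℝ) (l : List E) (θ : E) :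
    ND (tU T U) ψ l 0 θ = ND U (fun x => ψ (T x)) (l.map (tr T)) 0 (tr T θ) := by
  unfold ND
  have h : (fun θ => pm (tU T U) 0 θ ψ) =
      fun θ => (fun η => pm U 0 η (fun x => ψ (T x))) (tr T θ) := by
    funext η
    exact lin_pm0 T U η ψ
  rw [h, lin_DL (tr T) (fun η => pm U 0 η (fun x => ψ (T x)))]

theorem lin_ND0 (T : E ≃L[ℝ] E) (U ψ : E → ℝ) (l : List E) :
    ND (tU T U) ψ l 0 0 = ND U (fun x => ψ (T x)) (l.map (tr T)) 0 0 := by
  rw [lin_ND, map_zero]

/-- the inverse change of variables -/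
theorem lin_symm (T : E ≃L[ℝ] E) (W : E → ℝ) : tU T (tU T.symm W) = W := by
  funext x
  unfold tU
  have h1 : LinearMap.det ((T.symm : E →L[ℝ] E) : E →ₗ[ℝ] E) *
      LinearMap.det ((T : E →L[ℝ] E) : E →ₗ[ℝ] E) = 1 := by
    rw [← LinearMap.det_comp]
    have : ((T.symm : E →L[ℝ] E) : E →ₗ[ℝ] E) ∘ₗ ((T : E →L[ℝ] E) : E →ₗ[ℝ] E) =
        LinearMap.id := by
      ext y
      simp
    rw [this, LinearMap.det_id]
  have h2 : Real.log |LinearMap.det ((T.symm : E →L[ℝ] E) : E →ₗ[ℝ] E)| +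
      Real.log |LinearMap.det ((T : E →L[ℝ] E) : E →ₗ[ℝ] E)| = 0 := by
    rw [← Real.log_mul (lin_det_pos T.symm).ne' (lin_det_pos T).ne', ← abs_mul, h1]
    simp
  rw [add_assoc, h2, add_zero]
  simp

theorem lin_symm' (T : E ≃L[ℝ] E) (W : E → ℝ) : tU T.symm (tU T W) = W := by
  have h := lin_symm T.symm W
  rwa [ContinuousLinearEquiv.symm_symm] at h

/-- a crude lower bound: the image of a uniformly log-concave measure is uniformly log-concave -/
theorem lin_pp_ex (T : E ≃L[ℝ] E) {U : E → ℝ} {t : ℝ} (hU : PP U t) :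
    ∃ t' : ℝ, PP (tU T U) t' := by
  have ht : 0 < t := hU.1.choose_spec.pos
  refine ⟨t / (1 + ‖(T : E →L[ℝ] E)‖) ^ 2, lin_pp' T hU (by positivity) fun v => ?_⟩
  have h1 : ‖v‖ ≤ (1 + ‖(T : E →L[ℝ] E)‖) * ‖T.symm v‖ := by
    have h2 : ‖v‖ = ‖(T : E →L[ℝ] E) (T.symm v)‖ := by simp
    rw [h2]
    refine ((T : E →L[ℝ] E).le_opNorm _).trans ?_
    have := norm_nonneg (T.symm v)
    nlinarith
  rw [div_mul_eq_mul_div, div_le_iff₀ (by positivity)]
  have h3 : ‖v‖ ^ 2 ≤ ((1 + ‖(T : E →L[ℝ] E)‖) * ‖T.symm v‖) ^ 2 :=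
    pow_le_pow_left₀ (norm_nonneg _) h1 2
  calc t * ‖v‖ ^ 2 ≤ t * ((1 + ‖(T : E →L[ℝ] E)‖) * ‖T.symm v‖) ^ 2 := by gcongr
    _ = _ := by ring

/-- the potential, pulled back, of the posterior of the image measure -/
noncomputable def pb (T : E ≃L[ℝ] E) (U : E → ℝ) (s : ℝ) (θ : E) : E → ℝ :=
  tU T.symm (pw (tU T U) s θ)

theorem lin_pw (T : E ≃L[ℝ] E) (U : E → ℝ) (s : ℝ) (θ : E) :
    tU T (pb T U s θ) = pw (tU T U) s θ := lin_symm T _

theorem lin_hess_pw {W : E → ℝ} (hW : ContDiff ℝ 2 W) (hW2 : ∀ s θ, ContDiff ℝ 2 (pw W s θ))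
    (s : ℝ) (θ x v : E) :
    fderiv ℝ (fderiv ℝ (pw W s θ)) x v v = fderiv ℝ (fderiv ℝ W) x v v + s * ‖v‖ ^ 2 := by
  have h0 : Differentiable ℝ W := hW.differentiable (by norm_num)
  have h1 : Differentiable ℝ (fderiv ℝ W) :=
    (hW.fderiv_right (m := 1) (by norm_num)).differentiable (by norm_num)
  rw [← Pool.Agent.H84.Sym.D_D (hW2 s θ), ← Pool.Agent.H84.Sym.D_D hW]
  have e1 : D v (pw W s θ) = fun y => D v W y + (s * inner ℝ y v - inner ℝ θ v) := by
    funext y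
    have hn : HasFDerivAt (fun y : E => ‖y‖ ^ 2) (2 • (innerSL ℝ y)) y :=
      (hasStrictFDerivAt_norm_sq y).hasFDerivAt
    have hl : HasFDerivAt (fun y : E => (inner ℝ θ y : ℝ)) (innerSL ℝ θ) y :=
      (innerSL ℝ θ).hasFDerivAt
    have h2 := (((h0 y).hasFDerivAt.add ((hn.const_mul (s / 2)))).sub hl).add_const
      (Real.log (ZF W s θ (fun _ => 1)))
    have h3 : pw W s θ = fun y => W y + s / 2 * ‖y‖ ^ 2 - inner ℝ θ y +
        Real.log (ZF W s θ (fun _ => 1)) := by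
      funext z
      unfold pw tp
      ring
    unfold D
    rw [h3]
    erw [h2.fderiv]
    simp only [ContinuousLinearMap.add_apply, ContinuousLinearMap.sub_apply,
      ContinuousLinearMap.smul_apply, innerSL_apply_apply, smul_eq_mul, nsmul_eq_mul]
    push_cast
    ring
  rw [e1]
  have h4 : HasFDerivAt (fun y : E => D v W y) (fderiv ℝ (fun y => D v W y) x) x := by
    have : Differentiable ℝ (fun y : E => D v W y) := by
      intro y
      have := (ContinuousLinearMap.apply ℝ ℝ v).hasFDerivAt.comp y (h1 y).hasFDerivAt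
      exact this.differentiableAt
    exact (this x).hasFDerivAt
  have h5 : HasFDerivAt (fun y : E => (s * inner ℝ y v - inner ℝ θ v : ℝ)) (s • innerSL ℝ v) x := by
    have h6 : HasFDerivAt (fun y : E => (inner ℝ v y : ℝ)) (innerSL ℝ v) x :=
      (innerSL ℝ v).hasFDerivAt
    have h7 := (h6.const_mul s).sub_const (inner ℝ θ v : ℝ)
    refine h7.congr_of_eventuallyEq (Eventually.of_forall fun y => ?_)
    simp only
    rw [real_inner_comm]
  have h8 := (h4.add h5).fderiv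
  unfold D at h8 ⊢
  erw [h8]
  simp only [ContinuousLinearMap.add_apply, ContinuousLinearMap.smul_apply, innerSL_apply_apply,
    smul_eq_mul]
  congr 2
  exact real_inner_self_eq_norm_sq v

/-- the posterior of the image measure is the image of a measure of the same class -/
theorem lin_pb_pp (T : E ≃L[ℝ] E) {U : E → ℝ} {t : ℝ} (hU : PP U t) {s : ℝ} (hs : 0 ≤ s) (θ : E) :
    PP (pb T U s θ) t := by
  have ht : 0 < t := hU.1.choose_spec.pos
  obtain ⟨t', h1⟩ := lin_pp_ex T hU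
  have h2 := (Pool.Agent.H85.KG.pwb_thm E (tU T U) t' h1).1 s θ hs
  refine lin_pp T.symm h2 ht fun x v => ?_
  obtain ⟨⟨C, hP⟩, -⟩ := hU
  have h5 : ∀ s θ, ContDiff ℝ 2 (pw (tU T U) s θ) := by
    intro s θ
    have e3 : pw (tU T U) s θ = fun y => tU T U y + s * ‖y‖ ^ 2 / 2 - inner ℝ θ y +
        Real.log (ZF (tU T U) s θ (fun _ => 1)) := rfl
    rw [e3]
    have h6 := lin_smooth T hP.smooth
    have h7 : ContDiff ℝ 2 (fun y : E => ‖y‖ ^ 2) := contDiff_norm_sq ℝ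
    have h8 : ContDiff ℝ 2 (fun y : E => (inner ℝ θ y : ℝ)) := (innerSL ℝ θ).contDiff
    exact ((h6.add ((contDiff_const.mul h7).div_const 2)).sub h8).add contDiff_const
  rw [ContinuousLinearEquiv.symm_symm, lin_hess_pw (lin_smooth T hP.smooth) h5,
    lin_hess T hP.smooth]
  simp only [ContinuousLinearEquiv.symm_apply_apply]
  have h3 := hP.hess (T.symm x) v
  have h4 : 0 ≤ s * ‖T v‖ ^ 2 := by positivity
  linarith

/-- covariances of linear functionals for the image measure -/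
theorem lin_cv_li (T : E ≃L[ℝ] E) {U : E → ℝ} (hU : Continuous U) (u v : E) :
    cv (tU T U) (li u) (li v) = cv U (li (tr T u)) (li (tr T v)) := by
  rw [lin_cv T hU]
  congr 1 <;> funext x <;> exact tr_li T _ x

theorem lin_gc (T : E ≃L[ℝ] E) {f : E → ℝ} (hf : GC f) : GC (fun x => f (T x)) := by
  obtain ⟨hc, A, B, h⟩ := hf
  refine ⟨hc.comp T.continuous, |A|, |B| * ‖(T : E →L[ℝ] E)‖, fun x => (h (T x)).trans ?_⟩
  have h1 : B * ‖T x‖ ≤ |B| * ‖(T : E →L[ℝ] E)‖ * ‖x‖ := by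
    have h2 : ‖T x‖ ≤ ‖(T : E →L[ℝ] E)‖ * ‖x‖ := (T : E →L[ℝ] E).le_opNorm x
    calc B * ‖T x‖ ≤ |B| * ‖T x‖ := by gcongr; exact le_abs_self _
      _ ≤ |B| * (‖(T : E →L[ℝ] E)‖ * ‖x‖) := by gcongr
      _ = _ := by ring
  have h3 : Real.exp (B * ‖T x‖) ≤ Real.exp (|B| * ‖(T : E →L[ℝ] E)‖ * ‖x‖) :=
    Real.exp_le_exp.2 h1
  calc A * Real.exp (B * ‖T x‖) ≤ |A| * Real.exp (B * ‖T x‖) := by
        gcongr; exact le_abs_self _
    _ ≤ _ := by gcongr

end Pool.Agent.H20.KB
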