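import Pool.Agent.H35.KB.Stmts
import Pool.Agent.H52.KB.Bridge
import Pool.Agent.H20.KB.LinBase
import Pool.Agent.H15.KG.BOD
import Pool.Agent.H33.KG.BAS

/-!
# Project KB, module TRF: whitening by a linear change of variables
-/

set_option autoImplicit false
set_option linter.unusedSectionVars false

open MeasureTheory Set Filter Topology
open scoped ContDiff

namespace Pool.Agent.H35.KB

open Pool.Agent.H84 Pool.Agent.H84.Sym Pool.Agent.H84.Sym.P2x Pool.Agent.H19.KL
open Pool.Agent.H73.KG Pool.Agent.H20.KH Pool.Agent.H52.KB Pool.Agent.H20.KB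
open Pool.Agent.H55.KB (WS spl FL gN GG ML)

variable (E : Type) [NormedAddCommGroup E] [InnerProductSpace ℝ E]
    [FiniteDimensional ℝ E] [MeasurableSpace E] [BorelSpace E]

variable {E} in
/-- the linear equivalence whose transpose maps the fixed orthonormal basis to `e` -/
noncomputable def trf_T (e : Module.Basis (JJ E) ℝ E) : E ≃L[ℝ] E :=
  tr ((b0 E).toBasis.equiv e (Equiv.refl _)).toContinuousLinearEquiv

variable {E} in
theorem trf_tr (e : Module.Basis (JJ E) ℝ E) (a : JJ E) : tr (trf_T e) (b0 E a) = e a := by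
  unfold trf_T
  rw [tr_tr]
  have h := (b0 E).toBasis.equiv_apply a e (Equiv.refl _)
  rw [OrthonormalBasis.coe_toBasis] at h
  exact h

variable {E} in
theorem trf_nd (T : E ≃L[ℝ] E) (U ψ : E → ℝ) (l : List E) :
    ND (tU T U) ψ l 0 0 = ND U (fun x => ψ (T x)) (l.map (tr T)) 0 0 := by
  rw [← nd_eq, ← nd_eq]
  exact lin_ND0 T U ψ l

variable {E} in
/-- the transpose of `T` does not increase the norm -/
theorem trf_norm {t : ℝ} {U : E → ℝ} {e : Module.Basis (JJ E) ℝ E} (h : Fr E t U e) (v : E) :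
    ‖tr (trf_T e) v‖ ≤ ‖v‖ := by
  classical
  have hU := h.pp
  obtain ⟨⟨C, hP⟩, hprob⟩ := hU
  set u : JJ E → ℝ := fun a => inner ℝ (b0 E a) v with hu
  have hv : v = ∑ a, u a • b0 E a := by
    rw [hu]
    exact ((b0 E).sum_repr' v).symm
  have hTv : tr (trf_T e) v = ∑ a, u a • e a := by
    conv_lhs => rw [hv]
    rw [map_sum]
    refine Finset.sum_congr rfl fun a _ => ?_
    rw [map_smul, trf_tr]
  have hvn : ‖v‖ ^ 2 = ∑ a, u a ^ 2 := by
    rw [hu]
    have := (b0 E).sum_sq_norm_inner_right v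
    rw [← this]
    refine Finset.sum_congr rfl fun a _ => ?_
    rw [Real.norm_eq_abs, sq_abs]
  have hlin : li (∑ a, u a • e a) = fun x => ∑ a, u a * li (e a) x := by
    funext x
    unfold li
    rw [sum_inner]
    refine Finset.sum_congr rfl fun a _ => ?_
    rw [real_inner_smul_left]
  have hgl : ∀ w : E, GC (li w) := fun w => B15_gc_li w
  have hcv : cv U (li (∑ a, u a • e a)) (li (∑ a, u a • e a)) =
      ∑ a, ∑ c, u a * u c * cv U (li (e a)) (li (e c)) := by
    have hPP : PP U t := ⟨⟨C, hP⟩, hprob⟩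
    have h1 : ∀ g : E → ℝ, GC g → cv U (fun x => ∑ a, u a * li (e a) x) g =
        ∑ a, u a * cv U (li (e a)) g := fun g hg =>
      B15_cv_sum hPP u (F := fun a => li (e a)) (fun a => hgl (e a)) hg
    rw [hlin]
    rw [h1 _ (by rw [← hlin]; exact hgl _)]
    refine Finset.sum_congr rfl fun a _ => ?_
    rw [B15_cv_symm, h1 _ (hgl _), Finset.mul_sum]
    refine Finset.sum_congr rfl fun c _ => ?_
    rw [B15_cv_symm U (li (e c)) (li (e a))]
    ring
  have hnn : 0 ≤ cv U (li (∑ a, u a • e a)) (li (∑ a, u a • e a)) := by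
    have hPP : PP U t := ⟨⟨C, hP⟩, hprob⟩
    exact ((bas_thm E).2.2.2.1 U t hPP _ _ (hgl (∑ a, u a • e a)) (hgl (∑ a, u a • e a))).2.1
  have hin : ‖∑ a, u a • e a‖ ^ 2 = ∑ a, ∑ c, u a * u c * inner ℝ (e a) (e c) := by
    rw [← real_inner_self_eq_norm_sq, sum_inner]
    refine Finset.sum_congr rfl fun a _ => ?_
    rw [inner_sum]
    refine Finset.sum_congr rfl fun c _ => ?_
    rw [real_inner_smul_left, real_inner_smul_right]
    ring
  have hsum : ‖∑ a, u a • e a‖ ^ 2 + cv U (li (∑ a, u a • e a)) (li (∑ a, u a • e a)) =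
      ‖v‖ ^ 2 := by
    rw [hin, hcv, ← Finset.sum_add_distrib, hvn]
    refine Finset.sum_congr rfl fun a _ => ?_
    rw [← Finset.sum_add_distrib]
    have h2 : ∀ c, u a * u c * inner ℝ (e a) (e c) + u a * u c * cv U (li (e a)) (li (e c)) =
        u a * u c * (1 : Matrix (JJ E) (JJ E) ℝ) a c := by
      intro c
      rw [← h.orth]
      unfold PG
      rw [Matrix.of_apply]
      ring
    rw [Finset.sum_congr rfl fun c _ => h2 c, Finset.sum_eq_single a]
    · rw [Matrix.one_apply_eq]; ring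
    · intro c _ hc
      rw [Matrix.one_apply_ne (Ne.symm hc)]; ring
    · intro hc; exact absurd (Finset.mem_univ a) hc
  rw [hTv]
  refine le_of_sq_le_sq ?_ (norm_nonneg _)
  linarith

variable {E} in
theorem trf_norm' {t : ℝ} {U : E → ℝ} {e : Module.Basis (JJ E) ℝ E} (h : Fr E t U e) (v : E) :
    ‖trf_T e v‖ ≤ ‖v‖ := by
  have h1 : ‖trf_T e v‖ ^ 2 ≤ ‖v‖ * ‖trf_T e v‖ := by
    calc ‖trf_T e v‖ ^ 2 = inner ℝ (trf_T e v) (trf_T e v) := (real_inner_self_eq_norm_sq _).symm
      _ = inner ℝ (tr (trf_T e) (trf_T e v)) v := (tr_inner _ _ _).symm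
      _ ≤ ‖tr (trf_T e) (trf_T e v)‖ * ‖v‖ := real_inner_le_norm _ _
      _ ≤ ‖trf_T e v‖ * ‖v‖ := by gcongr; exact trf_norm h _
      _ = _ := mul_comm _ _
  have h2 := norm_nonneg (trf_T e v)
  rcases h2.eq_or_lt with h3 | h3
  · rw [← h3]; exact norm_nonneg v
  · nlinarith

variable {E} in
theorem trf_nd' (e : Module.Basis (JJ E) ℝ E) (V ψ : E → ℝ) (l : List (JJ E)) :
    ND (tU (trf_T e) V) ψ (l.map (b0 E)) 0 0 = ND V (fun x => ψ (trf_T e x)) (l.map e) 0 0 := by
  rw [trf_nd, List.map_map]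
  congr 1
  refine List.map_congr_left fun a _ => ?_
  exact trf_tr e a

variable {E} in
theorem trf_li (e : Module.Basis (JJ E) ℝ E) (a : JJ E) :
    (fun x => li (b0 E a) (trf_T e x)) = li (e a) := by
  funext x
  rw [tr_li, trf_tr]

variable {E} in
theorem trf_nx (e : Module.Basis (JJ E) ℝ E) (V : E → ℝ) (a : JJ E) (l : List (JJ E)) :
    nx (b0 E) (tU (trf_T e) V) a l = nx e V a l := by
  unfold nx
  rw [trf_nd', trf_li]

variable {E} in
theorem trf_one {V : E → ℝ} {t : ℝ} (hV : PP V t) {ψ : E → ℝ} (hψ : GC ψ) (v : E) :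
    ND V ψ [v] 0 0 = cv V ψ (li v) := by
  rw [nd_one hV hψ v le_rfl 0]
  exact cv_pw_zero hV ψ (li v)

variable {E} in
theorem trf_ax (e : Module.Basis (JJ E) ℝ E) {V : E → ℝ} {t : ℝ} (hV : PP V t) (a c : JJ E) :
    AX (b0 E) (tU (trf_T e) V) a c = cv V (li (e a)) (li (e c)) := by
  unfold AX
  rw [Matrix.of_apply, trf_nx]
  unfold nx
  exact trf_one hV (B15_gc_li (e a)) (e c)

/-- TRF -/
theorem trf_thm : TRFStmt E := by
  intro t U e h
  have hU := h.pp
  have ht : 0 < t := hU.1.choose_spec.pos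
  have hUc : Continuous U := hU.1.choose_spec.smooth.continuous
  set T := trf_T e with hT
  have hpp : PP (tU T U) t := by
    refine lin_pp' T hU ht fun v => ?_
    have h1 : ‖v‖ ≤ ‖T.symm v‖ := by
      have := trf_norm' h (T.symm v)
      rwa [← hT, ContinuousLinearEquiv.apply_symm_apply] at this
    gcongr
  refine ⟨tU T U, hpp, ?_, fun a l => trf_nx e U a l, ?_⟩
  · intro a c
    rw [trf_ax e hU a c, ← h.orth]
    rfl
  · intro ψ hψ
    have hcomp : (fun x => ψ (T.symm (T x))) = ψ := by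
      funext x
      rw [ContinuousLinearEquiv.symm_apply_apply]
    refine ⟨fun x => ψ (T.symm x), lin_gc T.symm hψ, ?_, ?_, ?_⟩
    · rw [lin_cv T hUc, hcomp]
    · intro l
      unfold np
      rw [trf_nd', ← hT, hcomp]
    · intro s θ hs
      have hV := lin_pb_pp T hU hs θ
      have hVc : Continuous (pb T U s θ) := hV.1.choose_spec.smooth.continuous
      refine ⟨pb T U s θ, hV, ?_, ?_, ?_⟩
      · rw [← lin_pw T U s θ, lin_cv T hVc, hcomp]
      · intro l
        unfold np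
        rw [← lin_pw T U s θ, trf_nd', ← hT, hcomp]
      · intro a c
        rw [← lin_pw T U s θ, trf_ax e hV a c]

end Pool.Agent.H35.KB
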